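import Pool.Agent.Strip051.Box.C2
import Pool.Agent.Strip051.Box.S30
import Pool.Agent.Strip051.LB.Fc.F2

/-! # LINE tight chart ChB30V3_pp_101 -/

namespace Pool.Agent.Strip051.LB.ChB30V3_pp_101

open Pool.Agent.Strip051.Box Pool.Agent.Strip051.Box2

open Pool.Agent.Strip051.LB.Fc Pool.Agent.Strip051.LB.Fc.F2 Pool.Agent.Strip051.LB.Fn Pool.Agent.Strip051.LB.Fn.F2

/-- coordinates of a point of the box -/
def In (b : Bx) (E : Pt) (x1 x2 : ℝ) : Prop :=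
  (S : ℝ) * x1 = ((b.p1 : ℝ) - b.n1) + b.q1 * E.e1 ∧ (S : ℝ) * x2 = ((b.p2 : ℝ) - b.n2) + b.q2 * E.e2

variable {b : Bx} {E : Pt} {x1 x2 : ℝ}

def t0 (b : Bx) : TM := X1 b
noncomputable def v0 (x1 _x2 : ℝ) : ℝ := x1
theorem h0 (h : In b E x1 x2) : Enc S E (t0 b) (v0 x1 x2) := enc_X1 h.1

def t1 (b : Bx) : TM := X2 b
noncomputable def v1 (_x1 x2 : ℝ) : ℝ := x2
theorem h1 (h : In b E x1 x2) : Enc S E (t1 b) (v1 x1 x2) := enc_X2 h.2

def t2 (_b : Bx) : TM := tconst 1859775393 0 1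
noncomputable def v2 (_x1 _x2 : ℝ) : ℝ := Real.sqrt ((3 : ℕ) : ℝ)
theorem h2 (_h : In b E x1 x2) : Enc S E (t2 b) (v2 x1 x2) := enc_sqrtn E (by decide) (by decide)

def t3 (b : Bx) : TM := tscale 1 2 (t2 b)
noncomputable def v3 (x1 x2 : ℝ) : ℝ := ((1 : ℕ) : ℝ) / ((2 : ℕ) : ℝ) * v2 x1 x2
theorem h3 (h : In b E x1 x2) : Enc S E (t3 b) (v3 x1 x2) := enc_scale 1 (by norm_num) (h2 h)

def t4 (b : Bx) : TM := tsq S (t0 b)
noncomputable def v4 (x1 x2 : ℝ) : ℝ := (v0 x1 x2) ^ 2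
theorem h4 (h : In b E x1 x2) : Enc S E (t4 b) (v4 x1 x2) := enc_sq hS (h0 h)

def t5 (_b : Bx) : TM := tconst (Nat.mul 3 S) 0 0
noncomputable def v5 (_x1 _x2 : ℝ) : ℝ := ((3 : ℕ) : ℝ)
theorem h5 (_h : In b E x1 x2) : Enc S E (t5 b) (v5 x1 x2) := enc_nc E 3

def t6 (b : Bx) : TM := tsub (t5 b) (t4 b)
noncomputable def v6 (x1 x2 : ℝ) : ℝ := v5 x1 x2 - v4 x1 x2
theorem h6 (h : In b E x1 x2) : Enc S E (t6 b) (v6 x1 x2) := enc_sub (h5 h) (h4 h)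

def t7 (b : Bx) : TM := tsqrt S (t6 b)
noncomputable def v7 (x1 x2 : ℝ) : ℝ := Real.sqrt (v6 x1 x2)
theorem h7 (h : In b E x1 x2) : Enc S E (t7 b) (v7 x1 x2) := enc_sqrt hS (h6 h)

def t8 (b : Bx) : TM := tinv S (t2 b)
noncomputable def v8 (x1 x2 : ℝ) : ℝ := (v2 x1 x2)⁻¹
theorem h8 (h : In b E x1 x2) : Enc S E (t8 b) (v8 x1 x2) := enc_inv hS (h2 h)

def t9 (b : Bx) : TM := tmul S (t7 b) (t8 b)
noncomputable def v9 (x1 x2 : ℝ) : ℝ := v7 x1 x2 * v8 x1 x2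
theorem h9 (h : In b E x1 x2) : Enc S E (t9 b) (v9 x1 x2) := enc_mul hS (h7 h) (h8 h)

def t10 (b : Bx) : TM := tmul S (t0 b) (t8 b)
noncomputable def v10 (x1 x2 : ℝ) : ℝ := v0 x1 x2 * v8 x1 x2
theorem h10 (h : In b E x1 x2) : Enc S E (t10 b) (v10 x1 x2) := enc_mul hS (h0 h) (h8 h)

def t12 (_b : Bx) : TM := tconst (Nat.div (Nat.mul 1 S) 2) 0 1
noncomputable def v12 (_x1 _x2 : ℝ) : ℝ := ((1 : ℕ) : ℝ) / ((2 : ℕ) : ℝ)
theorem h12 (_h : In b E x1 x2) : Enc S E (t12 b) (v12 x1 x2) := enc_rat E 1 (by norm_num)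

def t13 (b : Bx) : TM := tmul S (t9 b) (t3 b)
noncomputable def v13 (x1 x2 : ℝ) : ℝ := v9 x1 x2 * v3 x1 x2
theorem h13 (h : In b E x1 x2) : Enc S E (t13 b) (v13 x1 x2) := enc_mul hS (h9 h) (h3 h)

def t15 (b : Bx) : TM := tscale 1 2 (t10 b)
noncomputable def v15 (x1 x2 : ℝ) : ℝ := ((1 : ℕ) : ℝ) / ((2 : ℕ) : ℝ) * v10 x1 x2
theorem h15 (h : In b E x1 x2) : Enc S E (t15 b) (v15 x1 x2) := enc_scale 1 (by norm_num) (h10 h)

def t17 (b : Bx) : TM := tmul S (t10 b) (t3 b)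
noncomputable def v17 (x1 x2 : ℝ) : ℝ := v10 x1 x2 * v3 x1 x2
theorem h17 (h : In b E x1 x2) : Enc S E (t17 b) (v17 x1 x2) := enc_mul hS (h10 h) (h3 h)

def t19 (b : Bx) : TM := tscale 1 2 (t9 b)
noncomputable def v19 (x1 x2 : ℝ) : ℝ := ((1 : ℕ) : ℝ) / ((2 : ℕ) : ℝ) * v9 x1 x2
theorem h19 (h : In b E x1 x2) : Enc S E (t19 b) (v19 x1 x2) := enc_scale 1 (by norm_num) (h9 h)

def t21 (b : Bx) : TM := tsub (t13 b) (t15 b)
noncomputable def v21 (x1 x2 : ℝ) : ℝ := v13 x1 x2 - v15 x1 x2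
theorem h21 (h : In b E x1 x2) : Enc S E (t21 b) (v21 x1 x2) := enc_sub (h13 h) (h15 h)

def t22 (b : Bx) : TM := tadd (t17 b) (t19 b)
noncomputable def v22 (x1 x2 : ℝ) : ℝ := v17 x1 x2 + v19 x1 x2
theorem h22 (h : In b E x1 x2) : Enc S E (t22 b) (v22 x1 x2) := enc_add (h17 h) (h19 h)

def t23 (b : Bx) : TM := tsub (t1 b) (t22 b)
noncomputable def v23 (x1 x2 : ℝ) : ℝ := v1 x1 x2 - v22 x1 x2
theorem h23 (h : In b E x1 x2) : Enc S E (t23 b) (v23 x1 x2) := enc_sub (h1 h) (h22 h)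

def t24 (b : Bx) : TM := tsq S (t1 b)
noncomputable def v24 (x1 x2 : ℝ) : ℝ := (v1 x1 x2) ^ 2
theorem h24 (h : In b E x1 x2) : Enc S E (t24 b) (v24 x1 x2) := enc_sq hS (h1 h)

def t25 (_b : Bx) : TM := tconst (Nat.mul 1 S) 0 0
noncomputable def v25 (_x1 _x2 : ℝ) : ℝ := ((1 : ℕ) : ℝ)
theorem h25 (_h : In b E x1 x2) : Enc S E (t25 b) (v25 x1 x2) := enc_nc E 1

def t26 (b : Bx) : TM := tsub (t25 b) (t24 b)
noncomputable def v26 (x1 x2 : ℝ) : ℝ := v25 x1 x2 - v24 x1 x2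
theorem h26 (h : In b E x1 x2) : Enc S E (t26 b) (v26 x1 x2) := enc_sub (h25 h) (h24 h)

def t27 (b : Bx) : TM := tsqrt S (t26 b)
noncomputable def v27 (x1 x2 : ℝ) : ℝ := Real.sqrt (v26 x1 x2)
theorem h27 (h : In b E x1 x2) : Enc S E (t27 b) (v27 x1 x2) := enc_sqrt hS (h26 h)

def t28 (b : Bx) : TM := tsub (t27 b) (t7 b)
noncomputable def v28 (x1 x2 : ℝ) : ℝ := v27 x1 x2 - v7 x1 x2
theorem h28 (h : In b E x1 x2) : Enc S E (t28 b) (v28 x1 x2) := enc_sub (h27 h) (h7 h)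

def t29 (b : Bx) : TM := tsub (t1 b) (t0 b)
noncomputable def v29 (x1 x2 : ℝ) : ℝ := v1 x1 x2 - v0 x1 x2
theorem h29 (h : In b E x1 x2) : Enc S E (t29 b) (v29 x1 x2) := enc_sub (h1 h) (h0 h)

def t30 (_b : Bx) : TM := tconst (Nat.div (Nat.mul 3 S) 2) 0 1
noncomputable def v30 (_x1 _x2 : ℝ) : ℝ := ((3 : ℕ) : ℝ) / ((2 : ℕ) : ℝ)
theorem h30 (_h : In b E x1 x2) : Enc S E (t30 b) (v30 x1 x2) := enc_rat E 3 (by norm_num)

def t31 (b : Bx) : TM := tadd (t7 b) (t30 b)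
noncomputable def v31 (x1 x2 : ℝ) : ℝ := v7 x1 x2 + v30 x1 x2
theorem h31 (h : In b E x1 x2) : Enc S E (t31 b) (v31 x1 x2) := enc_add (h7 h) (h30 h)

def t32 (b : Bx) : TM := tmul S (t0 b) (t31 b)
noncomputable def v32 (x1 x2 : ℝ) : ℝ := v0 x1 x2 * v31 x1 x2
theorem h32 (h : In b E x1 x2) : Enc S E (t32 b) (v32 x1 x2) := enc_mul hS (h0 h) (h31 h)

def t33 (b : Bx) : TM := tadd (t3 b) (t0 b)
noncomputable def v33 (x1 x2 : ℝ) : ℝ := v3 x1 x2 + v0 x1 x2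
theorem h33 (h : In b E x1 x2) : Enc S E (t33 b) (v33 x1 x2) := enc_add (h3 h) (h0 h)

def t34 (b : Bx) : TM := tinv S (t33 b)
noncomputable def v34 (x1 x2 : ℝ) : ℝ := (v33 x1 x2)⁻¹
theorem h34 (h : In b E x1 x2) : Enc S E (t34 b) (v34 x1 x2) := enc_inv hS (h33 h)

def t35 (b : Bx) : TM := tmul S (t32 b) (t34 b)
noncomputable def v35 (x1 x2 : ℝ) : ℝ := v32 x1 x2 * v34 x1 x2
theorem h35 (h : In b E x1 x2) : Enc S E (t35 b) (v35 x1 x2) := enc_mul hS (h32 h) (h34 h)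

def t38 (b : Bx) : TM := tmul S (t2 b) (t1 b)
noncomputable def v38 (x1 x2 : ℝ) : ℝ := v2 x1 x2 * v1 x1 x2
theorem h38 (h : In b E x1 x2) : Enc S E (t38 b) (v38 x1 x2) := enc_mul hS (h2 h) (h1 h)

def t39 (b : Bx) : TM := tsub (t38 b) (t27 b)
noncomputable def v39 (x1 x2 : ℝ) : ℝ := v38 x1 x2 - v27 x1 x2
theorem h39 (h : In b E x1 x2) : Enc S E (t39 b) (v39 x1 x2) := enc_sub (h38 h) (h27 h)

def t41 (b : Bx) : TM := tadd (t25 b) (t38 b)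
noncomputable def v41 (x1 x2 : ℝ) : ℝ := v25 x1 x2 + v38 x1 x2
theorem h41 (h : In b E x1 x2) : Enc S E (t41 b) (v41 x1 x2) := enc_add (h25 h) (h38 h)

def t42 (b : Bx) : TM := tsub (t41 b) (t27 b)
noncomputable def v42 (x1 x2 : ℝ) : ℝ := v41 x1 x2 - v27 x1 x2
theorem h42 (h : In b E x1 x2) : Enc S E (t42 b) (v42 x1 x2) := enc_sub (h41 h) (h27 h)

def t43 (b : Bx) : TM := tnat 2 (t42 b)
noncomputable def v43 (x1 x2 : ℝ) : ℝ := ((2 : ℕ) : ℝ) * v42 x1 x2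
theorem h43 (h : In b E x1 x2) : Enc S E (t43 b) (v43 x1 x2) := enc_nat 2 (h42 h)

def t44 (b : Bx) : TM := tinv S (t43 b)
noncomputable def v44 (x1 x2 : ℝ) : ℝ := (v43 x1 x2)⁻¹
theorem h44 (h : In b E x1 x2) : Enc S E (t44 b) (v44 x1 x2) := enc_inv hS (h43 h)

def t46 (b : Bx) : TM := tsq S (t28 b)
noncomputable def v46 (x1 x2 : ℝ) : ℝ := (v28 x1 x2) ^ 2
theorem h46 (h : In b E x1 x2) : Enc S E (t46 b) (v46 x1 x2) := enc_sq hS (h28 h)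

def t47 (b : Bx) : TM := tsq S (t29 b)
noncomputable def v47 (x1 x2 : ℝ) : ℝ := (v29 x1 x2) ^ 2
theorem h47 (h : In b E x1 x2) : Enc S E (t47 b) (v47 x1 x2) := enc_sq hS (h29 h)

def t48 (b : Bx) : TM := tadd (t46 b) (t47 b)
noncomputable def v48 (x1 x2 : ℝ) : ℝ := v46 x1 x2 + v47 x1 x2
theorem h48 (h : In b E x1 x2) : Enc S E (t48 b) (v48 x1 x2) := enc_add (h46 h) (h47 h)

def t52 (b : Bx) : TM := tadd (t1 b) (t22 b)
noncomputable def v52 (x1 x2 : ℝ) : ℝ := v1 x1 x2 + v22 x1 x2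
theorem h52 (h : In b E x1 x2) : Enc S E (t52 b) (v52 x1 x2) := enc_add (h1 h) (h22 h)

def t55 (b : Bx) : TM := tadd (t27 b) (t21 b)
noncomputable def v55 (x1 x2 : ℝ) : ℝ := v27 x1 x2 + v21 x1 x2
theorem h55 (h : In b E x1 x2) : Enc S E (t55 b) (v55 x1 x2) := enc_add (h27 h) (h21 h)

def t56 (b : Bx) : TM := tinv S (t55 b)
noncomputable def v56 (x1 x2 : ℝ) : ℝ := (v55 x1 x2)⁻¹
theorem h56 (h : In b E x1 x2) : Enc S E (t56 b) (v56 x1 x2) := enc_inv hS (h55 h)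

def t57 (b : Bx) : TM := tmul S (t52 b) (t56 b)
noncomputable def v57 (x1 x2 : ℝ) : ℝ := v52 x1 x2 * v56 x1 x2
theorem h57 (h : In b E x1 x2) : Enc S E (t57 b) (v57 x1 x2) := enc_mul hS (h52 h) (h56 h)

def t59 (b : Bx) : TM := tsub (t21 b) (t7 b)
noncomputable def v59 (x1 x2 : ℝ) : ℝ := v21 x1 x2 - v7 x1 x2
theorem h59 (h : In b E x1 x2) : Enc S E (t59 b) (v59 x1 x2) := enc_sub (h21 h) (h7 h)

def t61 (b : Bx) : TM := tadd (t28 b) (t59 b)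
noncomputable def v61 (x1 x2 : ℝ) : ℝ := v28 x1 x2 + v59 x1 x2
theorem h61 (h : In b E x1 x2) : Enc S E (t61 b) (v61 x1 x2) := enc_add (h28 h) (h59 h)

def t62 (b : Bx) : TM := tmul S (t57 b) (t61 b)
noncomputable def v62 (x1 x2 : ℝ) : ℝ := v57 x1 x2 * v61 x1 x2
theorem h62 (h : In b E x1 x2) : Enc S E (t62 b) (v62 x1 x2) := enc_mul hS (h57 h) (h61 h)

def t64 (b : Bx) : TM := tsub (t22 b) (t0 b)
noncomputable def v64 (x1 x2 : ℝ) : ℝ := v22 x1 x2 - v0 x1 x2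
theorem h64 (h : In b E x1 x2) : Enc S E (t64 b) (v64 x1 x2) := enc_sub (h22 h) (h0 h)

def t66 (b : Bx) : TM := tadd (t29 b) (t64 b)
noncomputable def v66 (x1 x2 : ℝ) : ℝ := v29 x1 x2 + v64 x1 x2
theorem h66 (h : In b E x1 x2) : Enc S E (t66 b) (v66 x1 x2) := enc_add (h29 h) (h64 h)

def t68 (b : Bx) : TM := tsub (t66 b) (t62 b)
noncomputable def v68 (x1 x2 : ℝ) : ℝ := v66 x1 x2 - v62 x1 x2
theorem h68 (h : In b E x1 x2) : Enc S E (t68 b) (v68 x1 x2) := enc_sub (h66 h) (h62 h)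

def t70 (b : Bx) : TM := tsub (t7 b) (t27 b)
noncomputable def v70 (x1 x2 : ℝ) : ℝ := v7 x1 x2 - v27 x1 x2
theorem h70 (h : In b E x1 x2) : Enc S E (t70 b) (v70 x1 x2) := enc_sub (h7 h) (h27 h)

def t71 (b : Bx) : TM := tsub (t25 b) (t47 b)
noncomputable def v71 (x1 x2 : ℝ) : ℝ := v25 x1 x2 - v47 x1 x2
theorem h71 (h : In b E x1 x2) : Enc S E (t71 b) (v71 x1 x2) := enc_sub (h25 h) (h47 h)

def t72 (b : Bx) : TM := tsqrt S (t71 b)
noncomputable def v72 (x1 x2 : ℝ) : ℝ := Real.sqrt (v71 x1 x2)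
theorem h72 (h : In b E x1 x2) : Enc S E (t72 b) (v72 x1 x2) := enc_sqrt hS (h71 h)

def t73 (b : Bx) : TM := tadd (t15 b) (t13 b)
noncomputable def v73 (x1 x2 : ℝ) : ℝ := v15 x1 x2 + v13 x1 x2
theorem h73 (h : In b E x1 x2) : Enc S E (t73 b) (v73 x1 x2) := enc_add (h15 h) (h13 h)

def t74 (b : Bx) : TM := tmul S (t2 b) (t29 b)
noncomputable def v74 (x1 x2 : ℝ) : ℝ := v2 x1 x2 * v29 x1 x2
theorem h74 (h : In b E x1 x2) : Enc S E (t74 b) (v74 x1 x2) := enc_mul hS (h2 h) (h29 h)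

def t76 (b : Bx) : TM := tadd (t25 b) (t72 b)
noncomputable def v76 (x1 x2 : ℝ) : ℝ := v25 x1 x2 + v72 x1 x2
theorem h76 (h : In b E x1 x2) : Enc S E (t76 b) (v76 x1 x2) := enc_add (h25 h) (h72 h)

def t78 (b : Bx) : TM := tsub (t76 b) (t74 b)
noncomputable def v78 (x1 x2 : ℝ) : ℝ := v76 x1 x2 - v74 x1 x2
theorem h78 (h : In b E x1 x2) : Enc S E (t78 b) (v78 x1 x2) := enc_sub (h76 h) (h74 h)

def t79 (b : Bx) : TM := tinv S (t78 b)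
noncomputable def v79 (x1 x2 : ℝ) : ℝ := (v78 x1 x2)⁻¹
theorem h79 (h : In b E x1 x2) : Enc S E (t79 b) (v79 x1 x2) := enc_inv hS (h78 h)

def t83 (b : Bx) : TM := tadd (t72 b) (t73 b)
noncomputable def v83 (x1 x2 : ℝ) : ℝ := v72 x1 x2 + v73 x1 x2
theorem h83 (h : In b E x1 x2) : Enc S E (t83 b) (v83 x1 x2) := enc_add (h72 h) (h73 h)

def t84 (b : Bx) : TM := tinv S (t83 b)
noncomputable def v84 (x1 x2 : ℝ) : ℝ := (v83 x1 x2)⁻¹
theorem h84 (h : In b E x1 x2) : Enc S E (t84 b) (v84 x1 x2) := enc_inv hS (h83 h)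

def t85 (b : Bx) : TM := tmul S (t66 b) (t84 b)
noncomputable def v85 (x1 x2 : ℝ) : ℝ := v66 x1 x2 * v84 x1 x2
theorem h85 (h : In b E x1 x2) : Enc S E (t85 b) (v85 x1 x2) := enc_mul hS (h66 h) (h84 h)

def t86 (b : Bx) : TM := tneg (t85 b)
noncomputable def v86 (x1 x2 : ℝ) : ℝ := -(v85 x1 x2)
theorem h86 (h : In b E x1 x2) : Enc S E (t86 b) (v86 x1 x2) := enc_neg (h85 h)

def t87 (b : Bx) : TM := tmul S (t2 b) (t64 b)
noncomputable def v87 (x1 x2 : ℝ) : ℝ := v2 x1 x2 * v64 x1 x2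
theorem h87 (h : In b E x1 x2) : Enc S E (t87 b) (v87 x1 x2) := enc_mul hS (h2 h) (h64 h)

def t88 (b : Bx) : TM := tsub (t73 b) (t87 b)
noncomputable def v88 (x1 x2 : ℝ) : ℝ := v73 x1 x2 - v87 x1 x2
theorem h88 (h : In b E x1 x2) : Enc S E (t88 b) (v88 x1 x2) := enc_sub (h73 h) (h87 h)

def t89 (b : Bx) : TM := tsub (t86 b) (t2 b)
noncomputable def v89 (x1 x2 : ℝ) : ℝ := v86 x1 x2 - v2 x1 x2
theorem h89 (h : In b E x1 x2) : Enc S E (t89 b) (v89 x1 x2) := enc_sub (h86 h) (h2 h)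

def t90 (b : Bx) : TM := tadd (t25 b) (t73 b)
noncomputable def v90 (x1 x2 : ℝ) : ℝ := v25 x1 x2 + v73 x1 x2
theorem h90 (h : In b E x1 x2) : Enc S E (t90 b) (v90 x1 x2) := enc_add (h25 h) (h73 h)

def t91 (b : Bx) : TM := tmul S (t88 b) (t90 b)
noncomputable def v91 (x1 x2 : ℝ) : ℝ := v88 x1 x2 * v90 x1 x2
theorem h91 (h : In b E x1 x2) : Enc S E (t91 b) (v91 x1 x2) := enc_mul hS (h88 h) (h90 h)

def t92 (b : Bx) : TM := tmul S (t89 b) (t76 b)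
noncomputable def v92 (x1 x2 : ℝ) : ℝ := v89 x1 x2 * v76 x1 x2
theorem h92 (h : In b E x1 x2) : Enc S E (t92 b) (v92 x1 x2) := enc_mul hS (h89 h) (h76 h)

def t93 (b : Bx) : TM := tmul S (t88 b) (t85 b)
noncomputable def v93 (x1 x2 : ℝ) : ℝ := v88 x1 x2 * v85 x1 x2
theorem h93 (h : In b E x1 x2) : Enc S E (t93 b) (v93 x1 x2) := enc_mul hS (h88 h) (h85 h)

def t95 (b : Bx) : TM := tsub (t92 b) (t93 b)
noncomputable def v95 (x1 x2 : ℝ) : ℝ := v92 x1 x2 - v93 x1 x2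
theorem h95 (h : In b E x1 x2) : Enc S E (t95 b) (v95 x1 x2) := enc_sub (h92 h) (h93 h)

def t96 (b : Bx) : TM := tsub (t90 b) (t87 b)
noncomputable def v96 (x1 x2 : ℝ) : ℝ := v90 x1 x2 - v87 x1 x2
theorem h96 (h : In b E x1 x2) : Enc S E (t96 b) (v96 x1 x2) := enc_sub (h90 h) (h87 h)

def t97 (b : Bx) : TM := tinv S (t96 b)
noncomputable def v97 (x1 x2 : ℝ) : ℝ := (v96 x1 x2)⁻¹
theorem h97 (h : In b E x1 x2) : Enc S E (t97 b) (v97 x1 x2) := enc_inv hS (h96 h)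

def t98 (b : Bx) : TM := tmul S (t79 b) (t97 b)
noncomputable def v98 (x1 x2 : ℝ) : ℝ := v79 x1 x2 * v97 x1 x2
theorem h98 (h : In b E x1 x2) : Enc S E (t98 b) (v98 x1 x2) := enc_mul hS (h79 h) (h97 h)

def t99 (b : Bx) : TM := tmul S (t89 b) (t98 b)
noncomputable def v99 (x1 x2 : ℝ) : ℝ := v89 x1 x2 * v98 x1 x2
theorem h99 (h : In b E x1 x2) : Enc S E (t99 b) (v99 x1 x2) := enc_mul hS (h89 h) (h98 h)

def t102 (b : Bx) : TM := tmul S (t95 b) (t79 b)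
noncomputable def v102 (x1 x2 : ℝ) : ℝ := v95 x1 x2 * v79 x1 x2
theorem h102 (h : In b E x1 x2) : Enc S E (t102 b) (v102 x1 x2) := enc_mul hS (h95 h) (h79 h)

def t103 (b : Bx) : TM := tmul S (t91 b) (t99 b)
noncomputable def v103 (x1 x2 : ℝ) : ℝ := v91 x1 x2 * v99 x1 x2
theorem h103 (h : In b E x1 x2) : Enc S E (t103 b) (v103 x1 x2) := enc_mul hS (h91 h) (h99 h)

def t105 (b : Bx) : TM := tsub (t102 b) (t103 b)
noncomputable def v105 (x1 x2 : ℝ) : ℝ := v102 x1 x2 - v103 x1 x2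
theorem h105 (h : In b E x1 x2) : Enc S E (t105 b) (v105 x1 x2) := enc_sub (h102 h) (h103 h)

def t106 (b : Bx) : TM := kxq0_t (t70 b) (t29 b)
noncomputable def v106 (x1 x2 : ℝ) : ℝ := kxq0_v (v70 x1 x2) (v29 x1 x2)
theorem h106 (h : In b E x1 x2) : Enc S E (t106 b) (v106 x1 x2) := kxq0_enc (h70 h) (h29 h)

def t107 (b : Bx) : TM := tadd (t70 b) (t72 b)
noncomputable def v107 (x1 x2 : ℝ) : ℝ := v70 x1 x2 + v72 x1 x2
theorem h107 (h : In b E x1 x2) : Enc S E (t107 b) (v107 x1 x2) := enc_add (h70 h) (h72 h)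

def t108 (b : Bx) : TM := f2m_t (t29 b)
noncomputable def v108 (x1 x2 : ℝ) : ℝ := f2m_v (v29 x1 x2)
theorem h108 (h : In b E x1 x2) : Enc S E (t108 b) (v108 x1 x2) := f2m_enc (h29 h)

def t109 (b : Bx) : TM := tsub (t108 b) (t70 b)
noncomputable def v109 (x1 x2 : ℝ) : ℝ := v108 x1 x2 - v70 x1 x2
theorem h109 (h : In b E x1 x2) : Enc S E (t109 b) (v109 x1 x2) := enc_sub (h108 h) (h70 h)

def t115 (b : Bx) : TM := tmul S (t68 b) (t106 b)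
noncomputable def v115 (x1 x2 : ℝ) : ℝ := v68 x1 x2 * v106 x1 x2
theorem h115 (h : In b E x1 x2) : Enc S E (t115 b) (v115 x1 x2) := enc_mul hS (h68 h) (h106 h)

def t116 (b : Bx) : TM := tinv S (t107 b)
noncomputable def v116 (x1 x2 : ℝ) : ℝ := (v107 x1 x2)⁻¹
theorem h116 (h : In b E x1 x2) : Enc S E (t116 b) (v116 x1 x2) := enc_inv hS (h107 h)

def t117 (b : Bx) : TM := tmul S (t115 b) (t116 b)
noncomputable def v117 (x1 x2 : ℝ) : ℝ := v115 x1 x2 * v116 x1 x2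
theorem h117 (h : In b E x1 x2) : Enc S E (t117 b) (v117 x1 x2) := enc_mul hS (h115 h) (h116 h)

def t118 (b : Bx) : TM := tadd (t105 b) (t117 b)
noncomputable def v118 (x1 x2 : ℝ) : ℝ := v105 x1 x2 + v117 x1 x2
theorem h118 (h : In b E x1 x2) : Enc S E (t118 b) (v118 x1 x2) := enc_add (h105 h) (h117 h)

def t120 (b : Bx) : TM := tmul S (t7 b) (t1 b)
noncomputable def v120 (x1 x2 : ℝ) : ℝ := v7 x1 x2 * v1 x1 x2
theorem h120 (h : In b E x1 x2) : Enc S E (t120 b) (v120 x1 x2) := enc_mul hS (h7 h) (h1 h)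

def t121 (b : Bx) : TM := tmul S (t27 b) (t0 b)
noncomputable def v121 (x1 x2 : ℝ) : ℝ := v27 x1 x2 * v0 x1 x2
theorem h121 (h : In b E x1 x2) : Enc S E (t121 b) (v121 x1 x2) := enc_mul hS (h27 h) (h0 h)

def t122 (b : Bx) : TM := tsub (t120 b) (t121 b)
noncomputable def v122 (x1 x2 : ℝ) : ℝ := v120 x1 x2 - v121 x1 x2
theorem h122 (h : In b E x1 x2) : Enc S E (t122 b) (v122 x1 x2) := enc_sub (h120 h) (h121 h)

def t123 (b : Bx) : TM := tmul S (t122 b) (t8 b)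
noncomputable def v123 (x1 x2 : ℝ) : ℝ := v122 x1 x2 * v8 x1 x2
theorem h123 (h : In b E x1 x2) : Enc S E (t123 b) (v123 x1 x2) := enc_mul hS (h122 h) (h8 h)

def t124 (b : Bx) : TM := tsub (t123 b) (t12 b)
noncomputable def v124 (x1 x2 : ℝ) : ℝ := v123 x1 x2 - v12 x1 x2
theorem h124 (h : In b E x1 x2) : Enc S E (t124 b) (v124 x1 x2) := enc_sub (h123 h) (h12 h)

def t127 (b : Bx) : TM := tmul S (t57 b) (t0 b)
noncomputable def v127 (x1 x2 : ℝ) : ℝ := v57 x1 x2 * v0 x1 x2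
theorem h127 (h : In b E x1 x2) : Enc S E (t127 b) (v127 x1 x2) := enc_mul hS (h57 h) (h0 h)

def t130 (b : Bx) : TM := tadd (t7 b) (t127 b)
noncomputable def v130 (x1 x2 : ℝ) : ℝ := v7 x1 x2 + v127 x1 x2
theorem h130 (h : In b E x1 x2) : Enc S E (t130 b) (v130 x1 x2) := enc_add (h7 h) (h127 h)

def t132 (b : Bx) : TM := tmul S (t130 b) (t8 b)
noncomputable def v132 (x1 x2 : ℝ) : ℝ := v130 x1 x2 * v8 x1 x2
theorem h132 (h : In b E x1 x2) : Enc S E (t132 b) (v132 x1 x2) := enc_mul hS (h130 h) (h8 h)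

def t134 (b : Bx) : TM := tsub (t0 b) (t3 b)
noncomputable def v134 (x1 x2 : ℝ) : ℝ := v0 x1 x2 - v3 x1 x2
theorem h134 (h : In b E x1 x2) : Enc S E (t134 b) (v134 x1 x2) := enc_sub (h0 h) (h3 h)

def t135 (b : Bx) : TM := tsub (t1 b) (t3 b)
noncomputable def v135 (x1 x2 : ℝ) : ℝ := v1 x1 x2 - v3 x1 x2
theorem h135 (h : In b E x1 x2) : Enc S E (t135 b) (v135 x1 x2) := enc_sub (h1 h) (h3 h)

def t136 (b : Bx) : TM := tnat 2 (t21 b)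
noncomputable def v136 (x1 x2 : ℝ) : ℝ := ((2 : ℕ) : ℝ) * v21 x1 x2
theorem h136 (h : In b E x1 x2) : Enc S E (t136 b) (v136 x1 x2) := enc_nat 2 (h21 h)

def t137 (b : Bx) : TM := tnat 2 (t57 b)
noncomputable def v137 (x1 x2 : ℝ) : ℝ := ((2 : ℕ) : ℝ) * v57 x1 x2
theorem h137 (h : In b E x1 x2) : Enc S E (t137 b) (v137 x1 x2) := enc_nat 2 (h57 h)

def t139 (b : Bx) : TM := tadd (t25 b) (t136 b)
noncomputable def v139 (x1 x2 : ℝ) : ℝ := v25 x1 x2 + v136 x1 x2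
theorem h139 (h : In b E x1 x2) : Enc S E (t139 b) (v139 x1 x2) := enc_add (h25 h) (h136 h)

def t140 (b : Bx) : TM := tmul S (t2 b) (t22 b)
noncomputable def v140 (x1 x2 : ℝ) : ℝ := v2 x1 x2 * v22 x1 x2
theorem h140 (h : In b E x1 x2) : Enc S E (t140 b) (v140 x1 x2) := enc_mul hS (h2 h) (h22 h)

def t141 (b : Bx) : TM := tsub (t140 b) (t21 b)
noncomputable def v141 (x1 x2 : ℝ) : ℝ := v140 x1 x2 - v21 x1 x2
theorem h141 (h : In b E x1 x2) : Enc S E (t141 b) (v141 x1 x2) := enc_sub (h140 h) (h21 h)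

def t142 (b : Bx) : TM := tadd (t2 b) (t57 b)
noncomputable def v142 (x1 x2 : ℝ) : ℝ := v2 x1 x2 + v57 x1 x2
theorem h142 (h : In b E x1 x2) : Enc S E (t142 b) (v142 x1 x2) := enc_add (h2 h) (h57 h)

def t143 (b : Bx) : TM := tmul S (t139 b) (t141 b)
noncomputable def v143 (x1 x2 : ℝ) : ℝ := v139 x1 x2 * v141 x1 x2
theorem h143 (h : In b E x1 x2) : Enc S E (t143 b) (v143 x1 x2) := enc_mul hS (h139 h) (h141 h)

def t144 (b : Bx) : TM := tmul S (t137 b) (t39 b)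
noncomputable def v144 (x1 x2 : ℝ) : ℝ := v137 x1 x2 * v39 x1 x2
theorem h144 (h : In b E x1 x2) : Enc S E (t144 b) (v144 x1 x2) := enc_mul hS (h137 h) (h39 h)

def t146 (b : Bx) : TM := tmul S (t139 b) (t142 b)
noncomputable def v146 (x1 x2 : ℝ) : ℝ := v139 x1 x2 * v142 x1 x2
theorem h146 (h : In b E x1 x2) : Enc S E (t146 b) (v146 x1 x2) := enc_mul hS (h139 h) (h142 h)

def t147 (b : Bx) : TM := tsub (t146 b) (t144 b)
noncomputable def v147 (x1 x2 : ℝ) : ℝ := v146 x1 x2 - v144 x1 x2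
theorem h147 (h : In b E x1 x2) : Enc S E (t147 b) (v147 x1 x2) := enc_sub (h146 h) (h144 h)

def t148 (b : Bx) : TM := tadd (t25 b) (t140 b)
noncomputable def v148 (x1 x2 : ℝ) : ℝ := v25 x1 x2 + v140 x1 x2
theorem h148 (h : In b E x1 x2) : Enc S E (t148 b) (v148 x1 x2) := enc_add (h25 h) (h140 h)

def t149 (b : Bx) : TM := tsub (t148 b) (t21 b)
noncomputable def v149 (x1 x2 : ℝ) : ℝ := v148 x1 x2 - v21 x1 x2
theorem h149 (h : In b E x1 x2) : Enc S E (t149 b) (v149 x1 x2) := enc_sub (h148 h) (h21 h)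

def t150 (b : Bx) : TM := tnat 2 (t149 b)
noncomputable def v150 (x1 x2 : ℝ) : ℝ := ((2 : ℕ) : ℝ) * v149 x1 x2
theorem h150 (h : In b E x1 x2) : Enc S E (t150 b) (v150 x1 x2) := enc_nat 2 (h149 h)

def t151 (b : Bx) : TM := tnat 2 (t142 b)
noncomputable def v151 (x1 x2 : ℝ) : ℝ := ((2 : ℕ) : ℝ) * v142 x1 x2
theorem h151 (h : In b E x1 x2) : Enc S E (t151 b) (v151 x1 x2) := enc_nat 2 (h142 h)

def t152 (b : Bx) : TM := tinv S (t150 b)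
noncomputable def v152 (x1 x2 : ℝ) : ℝ := (v150 x1 x2)⁻¹
theorem h152 (h : In b E x1 x2) : Enc S E (t152 b) (v152 x1 x2) := enc_inv hS (h150 h)

def t153 (b : Bx) : TM := tmul S (t44 b) (t152 b)
noncomputable def v153 (x1 x2 : ℝ) : ℝ := v44 x1 x2 * v152 x1 x2
theorem h153 (h : In b E x1 x2) : Enc S E (t153 b) (v153 x1 x2) := enc_mul hS (h44 h) (h152 h)

def t154 (b : Bx) : TM := tmul S (t151 b) (t153 b)
noncomputable def v154 (x1 x2 : ℝ) : ℝ := v151 x1 x2 * v153 x1 x2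
theorem h154 (h : In b E x1 x2) : Enc S E (t154 b) (v154 x1 x2) := enc_mul hS (h151 h) (h153 h)

def t157 (b : Bx) : TM := tmul S (t147 b) (t44 b)
noncomputable def v157 (x1 x2 : ℝ) : ℝ := v147 x1 x2 * v44 x1 x2
theorem h157 (h : In b E x1 x2) : Enc S E (t157 b) (v157 x1 x2) := enc_mul hS (h147 h) (h44 h)

def t158 (b : Bx) : TM := tmul S (t143 b) (t154 b)
noncomputable def v158 (x1 x2 : ℝ) : ℝ := v143 x1 x2 * v154 x1 x2
theorem h158 (h : In b E x1 x2) : Enc S E (t158 b) (v158 x1 x2) := enc_mul hS (h143 h) (h154 h)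

def t160 (b : Bx) : TM := tsub (t157 b) (t158 b)
noncomputable def v160 (x1 x2 : ℝ) : ℝ := v157 x1 x2 - v158 x1 x2
theorem h160 (h : In b E x1 x2) : Enc S E (t160 b) (v160 x1 x2) := enc_sub (h157 h) (h158 h)

def t161 (b : Bx) : TM := tadd (t160 b) (t118 b)
noncomputable def v161 (x1 x2 : ℝ) : ℝ := v160 x1 x2 + v118 x1 x2
theorem h161 (h : In b E x1 x2) : Enc S E (t161 b) (v161 x1 x2) := enc_add (h160 h) (h118 h)

def t163 (b : Bx) : TM := tmul S (t134 b) (t160 b)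
noncomputable def v163 (x1 x2 : ℝ) : ℝ := v134 x1 x2 * v160 x1 x2
theorem h163 (h : In b E x1 x2) : Enc S E (t163 b) (v163 x1 x2) := enc_mul hS (h134 h) (h160 h)

def t164 (b : Bx) : TM := tsub (t163 b) (t35 b)
noncomputable def v164 (x1 x2 : ℝ) : ℝ := v163 x1 x2 - v35 x1 x2
theorem h164 (h : In b E x1 x2) : Enc S E (t164 b) (v164 x1 x2) := enc_sub (h163 h) (h35 h)

def t167 (b : Bx) : TM := tmul S (t135 b) (t161 b)
noncomputable def v167 (x1 x2 : ℝ) : ℝ := v135 x1 x2 * v161 x1 x2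
theorem h167 (h : In b E x1 x2) : Enc S E (t167 b) (v167 x1 x2) := enc_mul hS (h135 h) (h161 h)

def t168 (b : Bx) : TM := tsub (t164 b) (t167 b)
noncomputable def v168 (x1 x2 : ℝ) : ℝ := v164 x1 x2 - v167 x1 x2
theorem h168 (h : In b E x1 x2) : Enc S E (t168 b) (v168 x1 x2) := enc_sub (h164 h) (h167 h)

def t169 (b : Bx) : TM := tsub (t0 b) (t1 b)
noncomputable def v169 (x1 x2 : ℝ) : ℝ := v0 x1 x2 - v1 x1 x2
theorem h169 (h : In b E x1 x2) : Enc S E (t169 b) (v169 x1 x2) := enc_sub (h0 h) (h1 h)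

def t171 (b : Bx) : TM := tsub (t3 b) (t1 b)
noncomputable def v171 (x1 x2 : ℝ) : ℝ := v3 x1 x2 - v1 x1 x2
theorem h171 (h : In b E x1 x2) : Enc S E (t171 b) (v171 x1 x2) := enc_sub (h3 h) (h1 h)

def t172 (b : Bx) : TM := qn_t (t29 b) (t171 b) (t132 b) (t168 b) (t161 b)
noncomputable def v172 (x1 x2 : ℝ) : ℝ := qn_v (v29 x1 x2) (v171 x1 x2) (v132 x1 x2) (v168 x1 x2) (v161 x1 x2)
theorem h172 (h : In b E x1 x2) : Enc S E (t172 b) (v172 x1 x2) := qn_enc (h29 h) (h171 h) (h132 h) (h168 h) (h161 h)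

def t173 (b : Bx) : TM := tscale 1 4 (t2 b)
noncomputable def v173 (x1 x2 : ℝ) : ℝ := ((1 : ℕ) : ℝ) / ((4 : ℕ) : ℝ) * v2 x1 x2
theorem h173 (h : In b E x1 x2) : Enc S E (t173 b) (v173 x1 x2) := enc_scale 1 (by norm_num) (h2 h)

def t175 (b : Bx) : TM := tsub (t173 b) (t0 b)
noncomputable def v175 (x1 x2 : ℝ) : ℝ := v173 x1 x2 - v0 x1 x2
theorem h175 (h : In b E x1 x2) : Enc S E (t175 b) (v175 x1 x2) := enc_sub (h173 h) (h0 h)

def t177 (b : Bx) : TM := tsub (t29 b) (t173 b)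
noncomputable def v177 (x1 x2 : ℝ) : ℝ := v29 x1 x2 - v173 x1 x2
theorem h177 (h : In b E x1 x2) : Enc S E (t177 b) (v177 x1 x2) := enc_sub (h29 h) (h173 h)

def t179 (b : Bx) : TM := tsub (t173 b) (t1 b)
noncomputable def v179 (x1 x2 : ℝ) : ℝ := v173 x1 x2 - v1 x1 x2
theorem h179 (h : In b E x1 x2) : Enc S E (t179 b) (v179 x1 x2) := enc_sub (h173 h) (h1 h)

def t180 (_b : Bx) : TM := tconst (Nat.div (Nat.mul 1 S) 16) 0 1
noncomputable def v180 (_x1 _x2 : ℝ) : ℝ := ((1 : ℕ) : ℝ) / ((16 : ℕ) : ℝ)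
theorem h180 (_h : In b E x1 x2) : Enc S E (t180 b) (v180 x1 x2) := enc_rat E 1 (by norm_num)

def t181 (b : Bx) : TM := tsub (t23 b) (t180 b)
noncomputable def v181 (x1 x2 : ℝ) : ℝ := v23 x1 x2 - v180 x1 x2
theorem h181 (h : In b E x1 x2) : Enc S E (t181 b) (v181 x1 x2) := enc_sub (h23 h) (h180 h)

def t182 (b : Bx) : TM := tsub (t22 b) (t1 b)
noncomputable def v182 (x1 x2 : ℝ) : ℝ := v22 x1 x2 - v1 x1 x2
theorem h182 (h : In b E x1 x2) : Enc S E (t182 b) (v182 x1 x2) := enc_sub (h22 h) (h1 h)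

def t183 (b : Bx) : TM := tsub (t182 b) (t180 b)
noncomputable def v183 (x1 x2 : ℝ) : ℝ := v182 x1 x2 - v180 x1 x2
theorem h183 (h : In b E x1 x2) : Enc S E (t183 b) (v183 x1 x2) := enc_sub (h182 h) (h180 h)

def t184 (b : Bx) : TM := tsub (t25 b) (t48 b)
noncomputable def v184 (x1 x2 : ℝ) : ℝ := v25 x1 x2 - v48 x1 x2
theorem h184 (h : In b E x1 x2) : Enc S E (t184 b) (v184 x1 x2) := enc_sub (h25 h) (h48 h)

def t185 (b : Bx) : TM := tadd (t124 b) (t12 b)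
noncomputable def v185 (x1 x2 : ℝ) : ℝ := v124 x1 x2 + v12 x1 x2
theorem h185 (h : In b E x1 x2) : Enc S E (t185 b) (v185 x1 x2) := enc_add (h124 h) (h12 h)

def t186 (b : Bx) : TM := tneg (t185 b)
noncomputable def v186 (x1 x2 : ℝ) : ℝ := -(v185 x1 x2)
theorem h186 (h : In b E x1 x2) : Enc S E (t186 b) (v186 x1 x2) := enc_neg (h185 h)

def g0 (b : Bx) : Bool := and (pos (t68 b)) (and (pos (t26 b)) (and (pos (t55 b)) (and (pos (t71 b)) (and (pos (t83 b)) (and (pos (t78 b)) (and (pos (t96 b)) (and (pos (t107 b)) (and (pos (t109 b)) (and (pos (t43 b)) (and (pos (t150 b)) (and (pos (t33 b)) (or (pos (t182 b)) (pos (t172 b))))))))))))))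

def l0 (b : Bx) : Nat := cond (g0 b) 0 (pickb 1 (t172 b) b)

def P0 (x1 x2 : ℝ) : Prop := 0 < v68 x1 x2 ∧ 0 < v26 x1 x2 ∧ 0 < v55 x1 x2 ∧ 0 < v71 x1 x2 ∧ 0 < v83 x1 x2 ∧ 0 < v78 x1 x2 ∧ 0 < v96 x1 x2 ∧ 0 < v107 x1 x2 ∧ 0 < v109 x1 x2 ∧ 0 < v43 x1 x2 ∧ 0 < v150 x1 x2 ∧ 0 < v33 x1 x2 ∧ (0 < v182 x1 x2 ∨ 0 < v172 x1 x2)

theorem l0_sound (h : In b E x1 x2) (e : l0 b = 0) : P0 x1 x2 := by
  have e1 : g0 b = true := by
    rcases e2 : g0 b with _ | _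
    · unfold l0 at e; rw [e2, cond_false] at e; exact absurd e (pickb_ne _ _ _)
    · rfl
  exact ⟨pos_sound hS (h68 h) (Bool.and_eq_true_iff.mp e1).1, ⟨pos_sound hS (h26 h) (Bool.and_eq_true_iff.mp (Bool.and_eq_true_iff.mp e1).2).1, ⟨pos_sound hS (h55 h) (Bool.and_eq_true_iff.mp (Bool.and_eq_true_iff.mp (Bool.and_eq_true_iff.mp e1).2).2).1, ⟨pos_sound hS (h71 h) (Bool.and_eq_true_iff.mp (Bool.and_eq_true_iff.mp (Bool.and_eq_true_iff.mp (Bool.and_eq_true_iff.mp e1).2).2).2).1, ⟨pos_sound hS (h83 h) (Bool.and_eq_true_iff.mp (Bool.and_eq_true_iff.mp (Bool.and_eq_true_iff.mp (Bool.and_eq_true_iff.mp (Bool.and_eq_true_iff.mp e1).2).2).2).2).1, ⟨pos_sound hS (h78 h) (Bool.and_eq_true_iff.mp (Bool.and_eq_true_iff.mp (Bool.and_eq_true_iff.mp (Bool.and_eq_true_iff.mp (Bool.and_eq_true_iff.mp (Bool.and_eq_true_iff.mp e1).2).2).2).2).2).1, ⟨pos_sound hS (h96 h) (Bool.and_eq_true_iff.mp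 (Bool.and_eq_true_iff.mp (Bool.and_eq_true_iff.mp (Bool.and_eq_true_iff.mp (Bool.and_eq_true_iff.mp (Bool.and_eq_true_iff.mp (Bool.and_eq_true_iff.mp e1).2).2).2).2).2).2).1, ⟨pos_sound hS (h107 h) (Bool.and_eq_true_iff.mp (Bool.and_eq_true_iff.mp (Bool.and_eq_true_iff.mp (Bool.and_eq_true_iff.mp (Bool.and_eq_true_iff.mp (Bool.and_eq_true_iff.mp (Bool.and_eq_true_iff.mp (Bool.and_eq_true_iff.mp e1).2).2).2).2).2).2).2).1, ⟨pos_sound hS (h109 h) (Bool.and_eq_true_iff.mp (Bool.and_eq_true_iff.mp (Bool.and_eq_true_iff.mp (Bool.and_eq_true_iff.mp (Bool.and_eq_true_iff.mp (Bool.and_eq_true_iff.mp (Bool.and_eq_true_iff.mp (Bool.and_eq_true_iff.mp (Bool.and_eq_true_iff.mp e1).2).2).2).2).2).2).2).2).1, ⟨pos_sound hS (h43 h) (Bool.and_eq_true_iff.mp (Bool.and_eq_true_iff.mp (Bool.and_eq_true_iff.mp (Bool.and_eq_true_iff.mp (Bool.and_eq_true_iff.mp (Bool.and_eq_true_iff.mp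 (Bool.and_eq_true_iff.mp (Bool.and_eq_true_iff.mp (Bool.and_eq_true_iff.mp (Bool.and_eq_true_iff.mp e1).2).2).2).2).2).2).2).2).2).1, ⟨pos_sound hS (h150 h) (Bool.and_eq_true_iff.mp (Bool.and_eq_true_iff.mp (Bool.and_eq_true_iff.mp (Bool.and_eq_true_iff.mp (Bool.and_eq_true_iff.mp (Bool.and_eq_true_iff.mp (Bool.and_eq_true_iff.mp (Bool.and_eq_true_iff.mp (Bool.and_eq_true_iff.mp (Bool.and_eq_true_iff.mp (Bool.and_eq_true_iff.mp e1).2).2).2).2).2).2).2).2).2).2).1, ⟨pos_sound hS (h33 h) (Bool.and_eq_true_iff.mp (Bool.and_eq_true_iff.mp (Bool.and_eq_true_iff.mp (Bool.and_eq_true_iff.mp (Bool.and_eq_true_iff.mp (Bool.and_eq_true_iff.mp (Bool.and_eq_true_iff.mp (Bool.and_eq_true_iff.mp (Bool.and_eq_true_iff.mp (Bool.and_eq_true_iff.mp (Bool.and_eq_true_iff.mp (Bool.and_eq_true_iff.mp e1).2).2).2).2).2).2).2).2).2).2).2).1, ((Bool.or_eq_true_iff.mp (Bool.and_eq_true_iff.mp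 (Bool.and_eq_true_iff.mp (Bool.and_eq_true_iff.mp (Bool.and_eq_true_iff.mp (Bool.and_eq_true_iff.mp (Bool.and_eq_true_iff.mp (Bool.and_eq_true_iff.mp (Bool.and_eq_true_iff.mp (Bool.and_eq_true_iff.mp (Bool.and_eq_true_iff.mp (Bool.and_eq_true_iff.mp (Bool.and_eq_true_iff.mp e1).2).2).2).2).2).2).2).2).2).2).2).2).imp (fun a => pos_sound hS (h182 h) a) (fun a => pos_sound hS (h172 h) a))⟩⟩⟩⟩⟩⟩⟩⟩⟩⟩⟩⟩

def g1 (b : Bx) : Bool := or (pos (t175 b)) (or (pos (t134 b)) (or (pos (t177 b)) (or (pos (t179 b)) (or (pos (t135 b)) (or (pos (t181 b)) (or (pos (t183 b)) (or (pos (t169 b)) (or (pos (t184 b)) (pos (t186 b))))))))))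

def l1 (b : Bx) : Nat := cond (g1 b) 0 (l0 b)

def P1 (x1 x2 : ℝ) : Prop := (0 < v175 x1 x2 ∨ 0 < v134 x1 x2 ∨ 0 < v177 x1 x2 ∨ 0 < v179 x1 x2 ∨ 0 < v135 x1 x2 ∨ 0 < v181 x1 x2 ∨ 0 < v183 x1 x2 ∨ 0 < v169 x1 x2 ∨ 0 < v184 x1 x2 ∨ 0 < v186 x1 x2) ∨ (P0 x1 x2)

theorem l1_sound (h : In b E x1 x2) (e : l1 b = 0) : P1 x1 x2 := by
  unfold l1 at e
  rcases e1 : g1 b with _ | _
  · rw [e1, cond_false] at e
    have z0 : l0 b = 0 := e
    exact Or.inr (l0_sound h z0)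
  · exact Or.inl (((Bool.or_eq_true_iff.mp e1).imp (fun a => pos_sound hS (h175 h) a) (fun a => ((Bool.or_eq_true_iff.mp a).imp (fun a => pos_sound hS (h134 h) a) (fun a => ((Bool.or_eq_true_iff.mp a).imp (fun a => pos_sound hS (h177 h) a) (fun a => ((Bool.or_eq_true_iff.mp a).imp (fun a => pos_sound hS (h179 h) a) (fun a => ((Bool.or_eq_true_iff.mp a).imp (fun a => pos_sound hS (h135 h) a) (fun a => ((Bool.or_eq_true_iff.mp a).imp (fun a => pos_sound hS (h181 h) a) (fun a => ((Bool.or_eq_true_iff.mp a).imp (fun a => pos_sound hS (h183 h) a) (fun a => ((Bool.or_eq_true_iff.mp a).imp (fun a => pos_sound hS (h169 h) a) (fun a => ((Bool.or_eq_true_iff.mp a).imp (fun a => pos_sound hS (h184 h) a) (fun a => pos_sound hS (h186 h) a)))))))))))))))))))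

def f (b : Bx) : Nat := l1 b

/-- the statement -/
def Q (x1 x2 : ℝ) : Prop := P1 x1 x2

theorem f_sound (b : Bx) (hb : f b = 0) (x1 x2 : ℝ) (hm : Mem S b x1 x2) : Q x1 x2 := by
  obtain ⟨E, h⟩ := pt_of_mem hm
  have h : In b E x1 x2 := h
  unfold f at hb
  have e := hb
  have z1 : l1 b = 0 := e
  exact (l1_sound h z1)

/-- the box -/
def b0 : Bx := ⟨697415773, 0, 232471926, 697415773, 0, 232471926⟩

theorem chk_all {n : ℕ} {b : Bx} (h : chk f n b = true) (x1 x2 : ℝ) (hm : Mem S b x1 x2) : Q x1 x2 :=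
  chk_sound (fun b hb x1 x2 hm => f_sound b hb x1 x2 hm) n b h x1 x2 hm


end Pool.Agent.Strip051.LB.ChB30V3_pp_101
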