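import Pool.Agent.Strip051.LB.ChB30V3_pp_101.Defs
import Pool.Agent.Strip051.LB.Slope
import Pool.Agent.Strip051.LB.Star
import Pool.Agent.Strip051.LB.Cf

/-! # LINE tight chart ChB30V3_pp_101: slopes -/

namespace Pool.Agent.Strip051.LB.ChB30V3_pp_101

open Pool.Agent.Strip051.LB Pool.Agent.Strip051.LB.Fn Pool.Agent.Strip051.LB.Fc Pool.Agent.StripNear

set_option maxRecDepth 100000
set_option linter.all false

noncomputable def v36 (x1 x2 : ℝ) : ℝ := ((2 : ℕ) : ℝ) * v27 x1 x2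

noncomputable def v37 (x1 x2 : ℝ) : ℝ := v25 x1 x2 + v36 x1 x2

noncomputable def v40 (x1 x2 : ℝ) : ℝ := v37 x1 x2 * v39 x1 x2

noncomputable def v45 (x1 x2 : ℝ) : ℝ := v40 x1 x2 * v44 x1 x2

noncomputable def v49 (x1 x2 : ℝ) : ℝ := v48 x1 x2 - v25 x1 x2

noncomputable def v51 (x1 x2 : ℝ) : ℝ := (v22 x1 x2) ^ 2

noncomputable def v53 (x1 x2 : ℝ) : ℝ := v25 x1 x2 - v51 x1 x2

noncomputable def v54 (x1 x2 : ℝ) : ℝ := -(v52 x1 x2)

noncomputable def v58 (x1 x2 : ℝ) : ℝ := -(v57 x1 x2)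

noncomputable def v60 (x1 x2 : ℝ) : ℝ := (v59 x1 x2) ^ 2

noncomputable def v63 (x1 x2 : ℝ) : ℝ := -(v62 x1 x2)

noncomputable def v65 (x1 x2 : ℝ) : ℝ := (v64 x1 x2) ^ 2

noncomputable def v67 (x1 x2 : ℝ) : ℝ := v60 x1 x2 + v65 x1 x2

noncomputable def v69 (x1 x2 : ℝ) : ℝ := v67 x1 x2 - v25 x1 x2

noncomputable def v75 (x1 x2 : ℝ) : ℝ := v72 x1 x2 - v74 x1 x2

noncomputable def v77 (x1 x2 : ℝ) : ℝ := v75 x1 x2 * v76 x1 x2

noncomputable def v80 (x1 x2 : ℝ) : ℝ := v77 x1 x2 * v79 x1 x2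

noncomputable def v81 (x1 x2 : ℝ) : ℝ := v25 x1 x2 - v65 x1 x2

noncomputable def v82 (x1 x2 : ℝ) : ℝ := -(v66 x1 x2)

noncomputable def v100 (x1 x2 : ℝ) : ℝ := -(v99 x1 x2)

noncomputable def v101 (x1 x2 : ℝ) : ℝ := v91 x1 x2 * v97 x1 x2

noncomputable def v110 (x1 x2 : ℝ) : ℝ := v70 x1 x2 - v72 x1 x2

noncomputable def v111 (x1 x2 : ℝ) : ℝ := v110 x1 x2 * v106 x1 x2

noncomputable def v112 (x1 x2 : ℝ) : ℝ := v80 x1 x2 + v111 x1 x2

noncomputable def v113 (x1 x2 : ℝ) : ℝ := -(v112 x1 x2)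

noncomputable def v114 (x1 x2 : ℝ) : ℝ := -(v101 x1 x2)

noncomputable def v119 (x1 x2 : ℝ) : ℝ := -(v118 x1 x2)

noncomputable def v125 (x1 x2 : ℝ) : ℝ := v7 x1 x2 * v22 x1 x2

noncomputable def v126 (x1 x2 : ℝ) : ℝ := v21 x1 x2 * v0 x1 x2

noncomputable def v128 (x1 x2 : ℝ) : ℝ := -(v127 x1 x2)

noncomputable def v129 (x1 x2 : ℝ) : ℝ := v125 x1 x2 - v126 x1 x2

noncomputable def v131 (x1 x2 : ℝ) : ℝ := v129 x1 x2 * v8 x1 x2

noncomputable def v133 (x1 x2 : ℝ) : ℝ := v131 x1 x2 - v12 x1 x2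

noncomputable def v138 (x1 x2 : ℝ) : ℝ := -(v137 x1 x2)

noncomputable def v155 (x1 x2 : ℝ) : ℝ := -(v154 x1 x2)

noncomputable def v156 (x1 x2 : ℝ) : ℝ := v143 x1 x2 * v152 x1 x2

noncomputable def v162 (x1 x2 : ℝ) : ℝ := v22 x1 x2 - v3 x1 x2

structure Cx (x1 x2 : ℝ) : Prop where
  hc : v7 x1 x2 ^ 2 + x1 ^ 2 = 3
  p26 : 0 < v26 x1 x2
  p55 : 0 < v55 x1 x2
  p71 : 0 < v71 x1 x2
  p83 : 0 < v83 x1 x2
  p78 : 0 < v78 x1 x2
  p96 : 0 < v96 x1 x2
  p107 : 0 < v107 x1 x2
  p109 : 0 < v109 x1 x2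
  p43 : 0 < v43 x1 x2
  p150 : 0 < v150 x1 x2
  p33 : 0 < v33 x1 x2

variable {x1 x2 : ℝ}

theorem s3q (x1 x2 : ℝ) : v2 x1 x2 ^ 2 = 3 := by
  rw [v2]; exact s3sq

theorem s3ne (x1 x2 : ℝ) : v2 x1 x2 ≠ 0 := by
  rw [v2]; positivity

theorem s1 (c : Cx x1 x2) : v1 x1 x2 = v22 x1 x2 + v23 x1 x2 * v25 x1 x2 := by
  simp only [v1, v19, v22, v23, v25]
  (try push_cast)
  first | ring | grind

theorem s24 (c : Cx x1 x2) : v24 x1 x2 = v51 x1 x2 + v23 x1 x2 * v52 x1 x2 := by
  have a0 : (v1 x1 x2 + v22 x1 x2) * v1 x1 x2 = (v1 x1 x2 + v22 x1 x2) * (v22 x1 x2 + v23 x1 x2 * v25 x1 x2) := congrArg (fun z => (v1 x1 x2 + v22 x1 x2) * z) (s1 c)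
  try simp only [v1, v19, v22, v23, v24, v25, v51, v52] at a0
  simp only [v1, v19, v22, v23, v24, v25, v51, v52]
  (try push_cast at a0 ⊢)
  first | linear_combination a0 | ring | grind

theorem s26 (c : Cx x1 x2) : v26 x1 x2 = v53 x1 x2 + v23 x1 x2 * v54 x1 x2 := by
  have a1 := s24 c
  try simp only [v1, v19, v22, v23, v25, v26, v52, v53, v54] at a1
  simp only [v1, v19, v22, v23, v25, v26, v52, v53, v54]
  (try push_cast at a1 ⊢)
  first | linear_combination -a1 | ring | grind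

theorem q27 (c : Cx x1 x2) : v53 x1 x2 = v21 x1 x2 ^ 2 := by
  have hc := c.hc
  have h3 := s3q x1 x2
  have g0 : v2 x1 x2 ≠ 0 := s3ne x1 x2
  simp only [v0, v3, v8, v9, v10, v13, v15, v17, v19, v21, v22, v25, v51, v53] at hc ⊢
  push_cast at hc ⊢
  grind

theorem s27 (c : Cx x1 x2) : v27 x1 x2 = v21 x1 x2 + v23 x1 x2 * v58 x1 x2 := by
  have a0 := s26 c
  have e : 0 < Real.sqrt (v26 x1 x2) + v21 x1 x2 := by
    have e := c.p55
    simp only [v15, v21, v25, v26, v27, v55] at e ⊢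
    push_cast at e ⊢
    linarith
  have b := sl_sqrt a0 (q27 c) (le_of_lt c.p26) e
  clear a0
  try simp only [v1, v15, v19, v21, v22, v23, v25, v26, v27, v52, v53, v54, v55, v56, v57, v58] at b
  simp only [v1, v15, v19, v21, v22, v23, v25, v26, v27, v52, v53, v54, v55, v56, v57, v58]
  (try push_cast at b ⊢)
  first | linear_combination b | ring | grind

theorem s28 (c : Cx x1 x2) : v28 x1 x2 = v59 x1 x2 + v23 x1 x2 * v58 x1 x2 := by
  have a0 := s27 c
  try simp only [v1, v15, v19, v21, v22, v23, v28, v58, v59] at a0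
  simp only [v1, v15, v19, v21, v22, v23, v28, v58, v59]
  (try push_cast at a0 ⊢)
  first | linear_combination a0 | ring | grind

theorem s29 (c : Cx x1 x2) : v29 x1 x2 = v64 x1 x2 + v23 x1 x2 * v25 x1 x2 := by
  have a0 := s1 c
  try simp only [v0, v1, v19, v22, v23, v25, v29, v64] at a0
  simp only [v0, v1, v19, v22, v23, v25, v29, v64]
  (try push_cast at a0 ⊢)
  first | linear_combination a0 | ring | grind

theorem s36 (c : Cx x1 x2) : v36 x1 x2 = v136 x1 x2 + v23 x1 x2 * v138 x1 x2 := by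
  have a0 := s27 c
  try simp only [v1, v15, v19, v21, v22, v23, v36, v58, v136, v137, v138] at a0
  simp only [v1, v15, v19, v21, v22, v23, v36, v58, v136, v137, v138]
  (try push_cast at a0 ⊢)
  first | linear_combination (2 : ℝ) * a0 | ring | grind

theorem s37 (c : Cx x1 x2) : v37 x1 x2 = v139 x1 x2 + v23 x1 x2 * v138 x1 x2 := by
  have a1 := s36 c
  try simp only [v1, v15, v19, v21, v22, v23, v25, v36, v37, v136, v137, v138, v139] at a1
  simp only [v1, v15, v19, v21, v22, v23, v25, v36, v37, v136, v137, v138, v139]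
  (try push_cast at a1 ⊢)
  first | linear_combination a1 | ring | grind

theorem s38 (c : Cx x1 x2) : v38 x1 x2 = v140 x1 x2 + v23 x1 x2 * v2 x1 x2 := by
  have a1 : (v2 x1 x2) * v1 x1 x2 = (v2 x1 x2) * (v22 x1 x2 + v23 x1 x2 * v25 x1 x2) := congrArg (fun z => (v2 x1 x2) * z) (s1 c)
  try simp only [v1, v2, v19, v22, v23, v25, v38, v140] at a1
  simp only [v1, v2, v19, v22, v23, v25, v38, v140]
  (try push_cast at a1 ⊢)
  first | linear_combination a1 | ring | grind

theorem s39 (c : Cx x1 x2) : v39 x1 x2 = v141 x1 x2 + v23 x1 x2 * v142 x1 x2 := by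
  have a0 := s38 c
  have a1 := s27 c
  try simp only [v1, v2, v15, v19, v21, v22, v23, v39, v58, v141, v142] at a0
  try simp only [v1, v2, v15, v19, v21, v22, v23, v39, v58, v141, v142] at a1
  simp only [v1, v2, v15, v19, v21, v22, v23, v39, v58, v141, v142]
  (try push_cast at a0 a1 ⊢)
  first | linear_combination a0 - a1 | ring | grind

theorem s40 (c : Cx x1 x2) : v40 x1 x2 = v143 x1 x2 + v23 x1 x2 * v147 x1 x2 := by
  have a0 : (v39 x1 x2) * v37 x1 x2 = (v39 x1 x2) * (v139 x1 x2 + v23 x1 x2 * v138 x1 x2) := congrArg (fun z => (v39 x1 x2) * z) (s37 c)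
  have a1 : (v139 x1 x2) * v39 x1 x2 = (v139 x1 x2) * (v141 x1 x2 + v23 x1 x2 * v142 x1 x2) := congrArg (fun z => (v139 x1 x2) * z) (s39 c)
  try simp only [v1, v2, v15, v19, v21, v22, v23, v25, v36, v37, v39, v40, v136, v137, v138, v139, v141, v142, v143, v144, v146, v147] at a0
  try simp only [v1, v2, v15, v19, v21, v22, v23, v25, v36, v37, v39, v40, v136, v137, v138, v139, v141, v142, v143, v144, v146, v147] at a1
  simp only [v1, v2, v15, v19, v21, v22, v23, v25, v36, v37, v39, v40, v136, v137, v138, v139, v141, v142, v143, v144, v146, v147]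
  (try push_cast at a0 a1 ⊢)
  first | linear_combination a0 + a1 | ring | grind

theorem s41 (c : Cx x1 x2) : v41 x1 x2 = v148 x1 x2 + v23 x1 x2 * v2 x1 x2 := by
  have a1 := s38 c
  try simp only [v1, v2, v19, v22, v23, v25, v41, v148] at a1
  simp only [v1, v2, v19, v22, v23, v25, v41, v148]
  (try push_cast at a1 ⊢)
  first | linear_combination a1 | ring | grind

theorem s42 (c : Cx x1 x2) : v42 x1 x2 = v149 x1 x2 + v23 x1 x2 * v142 x1 x2 := by
  have a0 := s41 c
  have a1 := s27 c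
  try simp only [v1, v2, v15, v19, v21, v22, v23, v25, v41, v42, v58, v142, v148, v149] at a0
  try simp only [v1, v2, v15, v19, v21, v22, v23, v25, v41, v42, v58, v142, v148, v149] at a1
  simp only [v1, v2, v15, v19, v21, v22, v23, v25, v41, v42, v58, v142, v148, v149]
  (try push_cast at a0 a1 ⊢)
  first | linear_combination a0 - a1 | ring | grind

theorem s43 (c : Cx x1 x2) : v43 x1 x2 = v150 x1 x2 + v23 x1 x2 * v151 x1 x2 := by
  have a0 := s42 c
  try simp only [v1, v2, v15, v19, v21, v22, v23, v25, v41, v42, v43, v142, v148, v149, v150, v151] at a0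
  simp only [v1, v2, v15, v19, v21, v22, v23, v25, v41, v42, v43, v142, v148, v149, v150, v151]
  (try push_cast at a0 ⊢)
  first | linear_combination (2 : ℝ) * a0 | ring | grind

theorem s44 (c : Cx x1 x2) : v44 x1 x2 = v152 x1 x2 + v23 x1 x2 * v155 x1 x2 := by
  have a0 := s43 c
  have b := sl_inv a0 (c.p43).ne' (c.p150).ne'
  clear a0
  try simp only [v1, v2, v15, v19, v21, v22, v23, v25, v41, v42, v43, v44, v142, v148, v149, v150, v151, v152, v153, v154, v155] at b
  simp only [v1, v2, v15, v19, v21, v22, v23, v25, v41, v42, v43, v44, v142, v148, v149, v150, v151, v152, v153, v154, v155]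
  (try push_cast at b ⊢)
  first | linear_combination b | ring | grind

theorem s45 (c : Cx x1 x2) : v45 x1 x2 = v156 x1 x2 + v23 x1 x2 * v160 x1 x2 := by
  have a0 : (v44 x1 x2) * v40 x1 x2 = (v44 x1 x2) * (v143 x1 x2 + v23 x1 x2 * v147 x1 x2) := congrArg (fun z => (v44 x1 x2) * z) (s40 c)
  have a1 : (v143 x1 x2) * v44 x1 x2 = (v143 x1 x2) * (v152 x1 x2 + v23 x1 x2 * v155 x1 x2) := congrArg (fun z => (v143 x1 x2) * z) (s44 c)
  try simp only [v1, v19, v22, v23, v45, v147, v155, v156, v157, v158, v160] at a0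
  try simp only [v1, v19, v22, v23, v45, v147, v155, v156, v157, v158, v160] at a1
  simp only [v1, v19, v22, v23, v45, v147, v155, v156, v157, v158, v160]
  (try push_cast at a0 a1 ⊢)
  first | linear_combination a0 + a1 | ring | grind

theorem s46 (c : Cx x1 x2) : v46 x1 x2 = v60 x1 x2 + v23 x1 x2 * v63 x1 x2 := by
  have a0 : (v28 x1 x2 + v59 x1 x2) * v28 x1 x2 = (v28 x1 x2 + v59 x1 x2) * (v59 x1 x2 + v23 x1 x2 * v58 x1 x2) := congrArg (fun z => (v28 x1 x2 + v59 x1 x2) * z) (s28 c)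
  try simp only [v1, v15, v19, v21, v22, v23, v28, v46, v58, v59, v60, v61, v62, v63] at a0
  simp only [v1, v15, v19, v21, v22, v23, v28, v46, v58, v59, v60, v61, v62, v63]
  (try push_cast at a0 ⊢)
  first | linear_combination a0 | ring | grind

theorem s47 (c : Cx x1 x2) : v47 x1 x2 = v65 x1 x2 + v23 x1 x2 * v66 x1 x2 := by
  have a0 : (v29 x1 x2 + v64 x1 x2) * v29 x1 x2 = (v29 x1 x2 + v64 x1 x2) * (v64 x1 x2 + v23 x1 x2 * v25 x1 x2) := congrArg (fun z => (v29 x1 x2 + v64 x1 x2) * z) (s29 c)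
  try simp only [v0, v1, v19, v22, v23, v25, v29, v47, v64, v65, v66] at a0
  simp only [v0, v1, v19, v22, v23, v25, v29, v47, v64, v65, v66]
  (try push_cast at a0 ⊢)
  first | linear_combination a0 | ring | grind

theorem s48 (c : Cx x1 x2) : v48 x1 x2 = v67 x1 x2 + v23 x1 x2 * v68 x1 x2 := by
  have a0 := s46 c
  have a1 := s47 c
  try simp only [v0, v1, v19, v22, v23, v29, v48, v63, v64, v66, v67, v68] at a0
  try simp only [v0, v1, v19, v22, v23, v29, v48, v63, v64, v66, v67, v68] at a1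
  simp only [v0, v1, v19, v22, v23, v29, v48, v63, v64, v66, v67, v68]
  (try push_cast at a0 a1 ⊢)
  first | linear_combination a0 + a1 | ring | grind

theorem s49 (c : Cx x1 x2) : v49 x1 x2 = v69 x1 x2 + v23 x1 x2 * v68 x1 x2 := by
  have a0 := s48 c
  try simp only [v0, v1, v19, v22, v23, v25, v29, v48, v49, v64, v66, v67, v68, v69] at a0
  simp only [v0, v1, v19, v22, v23, v25, v29, v48, v49, v64, v66, v67, v68, v69]
  (try push_cast at a0 ⊢)
  first | linear_combination a0 | ring | grind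

theorem s71 (c : Cx x1 x2) : v71 x1 x2 = v81 x1 x2 + v23 x1 x2 * v82 x1 x2 := by
  have a1 := s47 c
  try simp only [v0, v1, v19, v22, v23, v25, v29, v64, v66, v71, v81, v82] at a1
  simp only [v0, v1, v19, v22, v23, v25, v29, v64, v66, v71, v81, v82]
  (try push_cast at a1 ⊢)
  first | linear_combination -a1 | ring | grind

theorem q72 (c : Cx x1 x2) : v81 x1 x2 = v73 x1 x2 ^ 2 := by
  have hc := c.hc
  have h3 := s3q x1 x2
  have g0 : v2 x1 x2 ≠ 0 := s3ne x1 x2
  simp only [v0, v3, v8, v9, v10, v13, v15, v17, v19, v22, v25, v64, v65, v73, v81] at hc ⊢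
  push_cast at hc ⊢
  grind

theorem s72 (c : Cx x1 x2) : v72 x1 x2 = v73 x1 x2 + v23 x1 x2 * v86 x1 x2 := by
  have a0 := s71 c
  have e : 0 < Real.sqrt (v71 x1 x2) + v73 x1 x2 := by
    have e := c.p83
    simp only [v15, v25, v71, v72, v73, v83] at e ⊢
    push_cast at e ⊢
    linarith
  have b := sl_sqrt a0 (q72 c) (le_of_lt c.p71) e
  clear a0
  try simp only [v0, v1, v15, v19, v22, v23, v25, v29, v64, v66, v71, v72, v73, v81, v82, v83, v84, v85, v86] at b
  simp only [v0, v1, v15, v19, v22, v23, v25, v29, v64, v66, v71, v72, v73, v81, v82, v83, v84, v85, v86]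
  (try push_cast at b ⊢)
  first | linear_combination b | ring | grind

theorem s74 (c : Cx x1 x2) : v74 x1 x2 = v87 x1 x2 + v23 x1 x2 * v2 x1 x2 := by
  have a1 : (v2 x1 x2) * v29 x1 x2 = (v2 x1 x2) * (v64 x1 x2 + v23 x1 x2 * v25 x1 x2) := congrArg (fun z => (v2 x1 x2) * z) (s29 c)
  try simp only [v0, v1, v2, v19, v22, v23, v25, v29, v64, v74, v87] at a1
  simp only [v0, v1, v2, v19, v22, v23, v25, v29, v64, v74, v87]
  (try push_cast at a1 ⊢)
  first | linear_combination a1 | ring | grind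

theorem s75 (c : Cx x1 x2) : v75 x1 x2 = v88 x1 x2 + v23 x1 x2 * v89 x1 x2 := by
  have a0 := s72 c
  have a1 := s74 c
  try simp only [v1, v2, v15, v19, v22, v23, v73, v75, v86, v88, v89] at a0
  try simp only [v1, v2, v15, v19, v22, v23, v73, v75, v86, v88, v89] at a1
  simp only [v1, v2, v15, v19, v22, v23, v73, v75, v86, v88, v89]
  (try push_cast at a0 a1 ⊢)
  first | linear_combination a0 - a1 | ring | grind

theorem s76 (c : Cx x1 x2) : v76 x1 x2 = v90 x1 x2 + v23 x1 x2 * v86 x1 x2 := by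
  have a1 := s72 c
  try simp only [v1, v15, v19, v22, v23, v25, v73, v76, v86, v90] at a1
  simp only [v1, v15, v19, v22, v23, v25, v73, v76, v86, v90]
  (try push_cast at a1 ⊢)
  first | linear_combination a1 | ring | grind

theorem s77 (c : Cx x1 x2) : v77 x1 x2 = v91 x1 x2 + v23 x1 x2 * v95 x1 x2 := by
  have a0 : (v76 x1 x2) * v75 x1 x2 = (v76 x1 x2) * (v88 x1 x2 + v23 x1 x2 * v89 x1 x2) := congrArg (fun z => (v76 x1 x2) * z) (s75 c)
  have a1 : (v88 x1 x2) * v76 x1 x2 = (v88 x1 x2) * (v90 x1 x2 + v23 x1 x2 * v86 x1 x2) := congrArg (fun z => (v88 x1 x2) * z) (s76 c)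
  try simp only [v1, v2, v15, v19, v22, v23, v25, v73, v75, v76, v77, v86, v88, v89, v90, v91, v92, v93, v95] at a0
  try simp only [v1, v2, v15, v19, v22, v23, v25, v73, v75, v76, v77, v86, v88, v89, v90, v91, v92, v93, v95] at a1
  simp only [v1, v2, v15, v19, v22, v23, v25, v73, v75, v76, v77, v86, v88, v89, v90, v91, v92, v93, v95]
  (try push_cast at a0 a1 ⊢)
  first | linear_combination a0 + a1 | ring | grind

theorem s78 (c : Cx x1 x2) : v78 x1 x2 = v96 x1 x2 + v23 x1 x2 * v89 x1 x2 := by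
  have a0 := s76 c
  have a1 := s74 c
  try simp only [v1, v2, v15, v19, v22, v23, v25, v73, v76, v78, v86, v89, v90, v96] at a0
  try simp only [v1, v2, v15, v19, v22, v23, v25, v73, v76, v78, v86, v89, v90, v96] at a1
  simp only [v1, v2, v15, v19, v22, v23, v25, v73, v76, v78, v86, v89, v90, v96]
  (try push_cast at a0 a1 ⊢)
  first | linear_combination a0 - a1 | ring | grind

theorem s79 (c : Cx x1 x2) : v79 x1 x2 = v97 x1 x2 + v23 x1 x2 * v100 x1 x2 := by
  have a0 := s78 c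
  have b := sl_inv a0 (c.p78).ne' (c.p96).ne'
  clear a0
  try simp only [v1, v2, v15, v19, v22, v23, v25, v73, v76, v78, v79, v86, v89, v90, v96, v97, v98, v99, v100] at b
  simp only [v1, v2, v15, v19, v22, v23, v25, v73, v76, v78, v79, v86, v89, v90, v96, v97, v98, v99, v100]
  (try push_cast at b ⊢)
  first | linear_combination b | ring | grind

theorem s80 (c : Cx x1 x2) : v80 x1 x2 = v101 x1 x2 + v23 x1 x2 * v105 x1 x2 := by
  have a0 : (v79 x1 x2) * v77 x1 x2 = (v79 x1 x2) * (v91 x1 x2 + v23 x1 x2 * v95 x1 x2) := congrArg (fun z => (v79 x1 x2) * z) (s77 c)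
  have a1 : (v91 x1 x2) * v79 x1 x2 = (v91 x1 x2) * (v97 x1 x2 + v23 x1 x2 * v100 x1 x2) := congrArg (fun z => (v91 x1 x2) * z) (s79 c)
  try simp only [v1, v19, v22, v23, v80, v95, v100, v101, v102, v103, v105] at a0
  try simp only [v1, v19, v22, v23, v80, v95, v100, v101, v102, v103, v105] at a1
  simp only [v1, v19, v22, v23, v80, v95, v100, v101, v102, v103, v105]
  (try push_cast at a0 a1 ⊢)
  first | linear_combination a0 + a1 | ring | grind

theorem s120 (c : Cx x1 x2) : v120 x1 x2 = v125 x1 x2 + v23 x1 x2 * v7 x1 x2 := by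
  have a1 : (v7 x1 x2) * v1 x1 x2 = (v7 x1 x2) * (v22 x1 x2 + v23 x1 x2 * v25 x1 x2) := congrArg (fun z => (v7 x1 x2) * z) (s1 c)
  try simp only [v1, v19, v22, v23, v25, v120, v125] at a1
  simp only [v1, v19, v22, v23, v25, v120, v125]
  (try push_cast at a1 ⊢)
  first | linear_combination a1 | ring | grind

theorem s121 (c : Cx x1 x2) : v121 x1 x2 = v126 x1 x2 + v23 x1 x2 * v128 x1 x2 := by
  have a0 : (v0 x1 x2) * v27 x1 x2 = (v0 x1 x2) * (v21 x1 x2 + v23 x1 x2 * v58 x1 x2) := congrArg (fun z => (v0 x1 x2) * z) (s27 c)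
  try simp only [v0, v1, v15, v19, v21, v22, v23, v58, v121, v126, v127, v128] at a0
  simp only [v0, v1, v15, v19, v21, v22, v23, v58, v121, v126, v127, v128]
  (try push_cast at a0 ⊢)
  first | linear_combination a0 | ring | grind

theorem s122 (c : Cx x1 x2) : v122 x1 x2 = v129 x1 x2 + v23 x1 x2 * v130 x1 x2 := by
  have a0 := s120 c
  have a1 := s121 c
  try simp only [v1, v19, v22, v23, v122, v128, v129, v130] at a0
  try simp only [v1, v19, v22, v23, v122, v128, v129, v130] at a1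
  simp only [v1, v19, v22, v23, v122, v128, v129, v130]
  (try push_cast at a0 a1 ⊢)
  first | linear_combination a0 - a1 | ring | grind

theorem s123 (c : Cx x1 x2) : v123 x1 x2 = v131 x1 x2 + v23 x1 x2 * v132 x1 x2 := by
  have a0 : (v8 x1 x2) * v122 x1 x2 = (v8 x1 x2) * (v129 x1 x2 + v23 x1 x2 * v130 x1 x2) := congrArg (fun z => (v8 x1 x2) * z) (s122 c)
  try simp only [v1, v19, v22, v23, v122, v123, v129, v130, v131, v132] at a0
  simp only [v1, v19, v22, v23, v122, v123, v129, v130, v131, v132]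
  (try push_cast at a0 ⊢)
  first | linear_combination a0 | ring | grind

theorem s124 (c : Cx x1 x2) : v124 x1 x2 = v133 x1 x2 + v23 x1 x2 * v132 x1 x2 := by
  have a0 := s123 c
  try simp only [v1, v12, v19, v22, v23, v124, v133] at a0
  simp only [v1, v12, v19, v22, v23, v124, v133]
  (try push_cast at a0 ⊢)
  first | linear_combination a0 | ring | grind

theorem s135 (c : Cx x1 x2) : v135 x1 x2 = v162 x1 x2 + v23 x1 x2 * v25 x1 x2 := by
  have a0 := s1 c
  try simp only [v1, v2, v3, v19, v22, v23, v25, v135, v162] at a0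
  simp only [v1, v2, v3, v19, v22, v23, v25, v135, v162]
  (try push_cast at a0 ⊢)
  first | linear_combination a0 | ring | grind

theorem bD (c : Cx x1 x2) : v69 x1 x2 = 0 := by
  have hc := c.hc
  have h3 := s3q x1 x2
  have g0 : v2 x1 x2 ≠ 0 := s3ne x1 x2
  simp only [v0, v3, v8, v9, v10, v13, v15, v17, v19, v21, v22, v25, v59, v60, v64, v65, v67, v69] at hc ⊢
  push_cast at hc ⊢
  grind

theorem sD (c : Cx x1 x2) : v49 x1 x2 = v23 x1 x2 * v68 x1 x2 := by
  have h := s49 c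
  rw [bD c, zero_add] at h
  exact h

theorem s113 (c : Cx x1 x2) : v113 x1 x2 = v114 x1 x2 + v23 x1 x2 * v119 x1 x2 := by
  have hA := s80 c
  have hd := sD c
  have hs := c.p107
  have hc : v72 x1 x2 ^ 2 = v71 x1 x2 := by
    rw [v72]; exact Real.sq_sqrt (le_of_lt c.p71)
  have hx : v70 x1 x2 - v72 x1 x2 = v49 x1 x2 * (v107 x1 x2)⁻¹ := by
    have g : v70 x1 x2 ^ 2 - v72 x1 x2 ^ 2 = v49 x1 x2 := by
      rw [hc]; simp only [v0, v1, v25, v28, v29, v46, v47, v48, v49, v70, v71, v107]; push_cast; ring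
    have g3 : v107 x1 x2 = v70 x1 x2 + v72 x1 x2 := by
      simp only [v0, v1, v25, v28, v29, v46, v47, v48, v49, v70, v71, v107]; try push_cast
      try ring
    have g2 : 0 < v70 x1 x2 + v72 x1 x2 := by rw [← g3]; exact hs
    rw [g3]; exact diff_of_sq g g2
  have hy : v106 x1 x2 * (v70 x1 x2 - v72 x1 x2) = v106 x1 x2 * (v49 x1 x2 * (v107 x1 x2)⁻¹) := congrArg (fun z => v106 x1 x2 * z) hx
  have hK : v106 x1 x2 * (v107 x1 x2)⁻¹ * v49 x1 x2 = v106 x1 x2 * (v107 x1 x2)⁻¹ * (v23 x1 x2 * v68 x1 x2) := congrArg (fun z => v106 x1 x2 * (v107 x1 x2)⁻¹ * z) hd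
  try simp only [v0, v1, v19, v22, v23, v25, v29, v48, v49, v64, v66, v68, v70, v105, v107, v110, v111, v112, v113, v114, v115, v116, v117, v118, v119] at hA
  try simp only [v0, v1, v19, v22, v23, v25, v29, v48, v49, v64, v66, v68, v70, v105, v107, v110, v111, v112, v113, v114, v115, v116, v117, v118, v119] at hy
  try simp only [v0, v1, v19, v22, v23, v25, v29, v48, v49, v64, v66, v68, v70, v105, v107, v110, v111, v112, v113, v114, v115, v116, v117, v118, v119] at hK
  simp only [v0, v1, v19, v22, v23, v25, v29, v48, v49, v64, v66, v68, v70, v105, v107, v110, v111, v112, v113, v114, v115, v116, v117, v118, v119]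
  (try push_cast at hA hy hK ⊢)
  first | linear_combination -(hA + hy + hK) | grind

theorem bE (c : Cx x1 x2) : v133 x1 x2 = 0 := by
  have hc := c.hc
  have h3 := s3q x1 x2
  have g0 : v2 x1 x2 ≠ 0 := s3ne x1 x2
  simp only [v0, v3, v8, v9, v10, v12, v13, v15, v17, v19, v21, v22, v125, v126, v129, v131, v133] at hc ⊢
  push_cast at hc ⊢
  grind

theorem hE (c : Cx x1 x2) : v124 x1 x2 = v23 x1 x2 * v132 x1 x2 := by
  have h := s124 c
  rw [bE c, zero_add] at h
  exact h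

theorem bS (c : Cx x1 x2) : v156 x1 x2 - v35 x1 x2 - v114 x1 x2 = 0 := by
  have hc := c.hc
  have h3 := s3q x1 x2
  have g1 := (c.p33).ne'
  have g2 := (c.p96).ne'
  have g3 := (c.p150).ne'
  have g0 : v2 x1 x2 ≠ 0 := s3ne x1 x2
  simp only [v0, v3, v8, v9, v10, v13, v15, v17, v19, v21, v22, v25, v30, v31, v32, v33, v34, v35, v64, v73, v87, v88, v90, v91, v96, v97, v101, v114, v136, v139, v140, v141, v143, v148, v149, v150, v152, v156] at hc g1 g2 g3 ⊢
  push_cast at hc g1 g2 g3 ⊢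
  grind

theorem hS (c : Cx x1 x2) : v45 x1 x2 - v35 x1 x2 - v113 x1 x2 = v23 x1 x2 * v161 x1 x2 := by
  have a3 := s45 c
  have a2 := s113 c
  have b := bS c
  try simp only [v1, v19, v22, v23, v105, v112, v113, v114, v118, v119, v160, v161] at a3
  try simp only [v1, v19, v22, v23, v105, v112, v113, v114, v118, v119, v160, v161] at a2
  try simp only [v1, v19, v22, v23, v105, v112, v113, v114, v118, v119, v160, v161] at b
  try simp only [v1, v19, v22, v23, v105, v112, v113, v114, v118, v119, v160, v161]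
  (try push_cast at a3 a2 b ⊢)
  first | linear_combination a3 - a2 + b | grind

theorem bC (c : Cx x1 x2) : v134 x1 x2 * v156 x1 x2 - v162 x1 x2 * v35 x1 x2 = 0 := by
  have hc := c.hc
  have h3 := s3q x1 x2
  have g1 := (c.p33).ne'
  have g2 := (c.p150).ne'
  have g0 : v2 x1 x2 ≠ 0 := s3ne x1 x2
  simp only [v0, v3, v8, v9, v10, v13, v15, v17, v19, v21, v22, v25, v30, v31, v32, v33, v34, v35, v134, v136, v139, v140, v141, v143, v148, v149, v150, v152, v156, v162] at hc g1 g2 ⊢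
  push_cast at hc g1 g2 ⊢
  grind

theorem hC (c : Cx x1 x2) : v134 x1 x2 * v45 x1 x2 - v135 x1 x2 * v35 x1 x2 = v23 x1 x2 * v164 x1 x2 := by
  have a2 : v134 x1 x2 * v45 x1 x2 = v134 x1 x2 * (v156 x1 x2 + v23 x1 x2 * v160 x1 x2) := congrArg (fun z => v134 x1 x2 * z) (s45 c)
  have a3 : v35 x1 x2 * v135 x1 x2 = v35 x1 x2 * (v162 x1 x2 + v23 x1 x2 * v25 x1 x2) := congrArg (fun z => v35 x1 x2 * z) (s135 c)
  have b := bC c
  try simp only [v0, v1, v2, v3, v19, v22, v23, v25, v134, v135, v160, v162, v163, v164] at a2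
  try simp only [v0, v1, v2, v3, v19, v22, v23, v25, v134, v135, v160, v162, v163, v164] at a3
  try simp only [v0, v1, v2, v3, v19, v22, v23, v25, v134, v135, v160, v162, v163, v164] at b
  simp only [v0, v1, v2, v3, v19, v22, v23, v25, v134, v135, v160, v162, v163, v164]
  (try push_cast at a2 a3 b ⊢)
  first | linear_combination a2 - a3 + b | grind

theorem hT (x1 x2 : ℝ) : v135 x1 x2 = v134 x1 x2 + v29 x1 x2 := by
  simp only [v0, v1, v2, v3, v29, v134, v135]
  push_cast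
  ring

theorem hG (c : Cx x1 x2) : (-v135 x1 x2) * (-v113 x1 x2) - v29 x1 x2 * v45 x1 x2 = v23 x1 x2 * v168 x1 x2 := by
  have b := hC c
  have m0 : v135 x1 x2 * (v45 x1 x2 - v35 x1 x2 - v113 x1 x2) = v135 x1 x2 * (v23 x1 x2 * v161 x1 x2) := congrArg (fun z => v135 x1 x2 * z) (hS c)
  have m1 : v45 x1 x2 * v135 x1 x2 = v45 x1 x2 * (v134 x1 x2 + v29 x1 x2) := congrArg (fun z => v45 x1 x2 * z) (hT x1 x2)
  try simp only [v0, v1, v2, v3, v19, v22, v23, v29, v105, v112, v113, v118, v134, v135, v160, v161, v164, v167, v168] at b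
  try simp only [v0, v1, v2, v3, v19, v22, v23, v29, v105, v112, v113, v118, v134, v135, v160, v161, v164, v167, v168] at m0
  try simp only [v0, v1, v2, v3, v19, v22, v23, v29, v105, v112, v113, v118, v134, v135, v160, v161, v164, v167, v168] at m1
  try simp only [v0, v1, v2, v3, v19, v22, v23, v29, v105, v112, v113, v118, v134, v135, v160, v161, v164, v167, v168]
  (try push_cast at b m0 m1 ⊢)
  first | linear_combination b - m0 + m1 | grind

theorem core (c : Cx x1 x2) (hW : 0 ≤ v23 x1 x2) (hWQ : 0 ≤ v23 x1 x2 * v172 x1 x2) (h1 : 0 ≤ v29 x1 x2) (h2 : 0 ≤ (-v135 x1 x2)) (h3 : v29 x1 x2 + (-v135 x1 x2) ≤ Pool.Agent.StripNear.h0) :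
    0 ≤ starn_v (v124 x1 x2) (v29 x1 x2) ((-v135 x1 x2)) ((-v113 x1 x2)) (v45 x1 x2) (v35 x1 x2) := by
  have hD : (-v113 x1 x2) + v45 x1 x2 - v35 x1 x2 = v23 x1 x2 * v161 x1 x2 := by
    have b := hS c
    linear_combination b
  have k := starn_ge hW h1 h2 h3 (hE c) hD (hG c)
  have f1 : (-v135 x1 x2) = v171 x1 x2 := by
    simp only [v0, v1, v2, v3, v29, v135, v171]
    try (push_cast; ring)
  refine le_trans hWQ (le_trans (le_of_eq ?_) k)
  rw [v172]
  rw [f1]

end Pool.Agent.Strip051.LB.ChB30V3_pp_101
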